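import Mathlib

/-!
Descents of 0/1 sequences compatible with the moving arcs function.
-/

namespace Pool.Agent.NH76.Neck

open Finset

variable {ℓ : ℕ} [NeZero ℓ]

lemma val_succ (x : ZMod ℓ) (hx : x + 1 ≠ 0) : (x + 1).val = x.val + 1 := by
  have h1 : (x + 1).val = (x.val + 1) % ℓ := by
    rw [ZMod.val_add, ZMod.val_one_eq_one_mod, Nat.add_mod_mod]
  have h2 : x.val < ℓ := ZMod.val_lt x
  rcases Nat.lt_or_ge (x.val + 1) ℓ with h3 | h3
  · rw [h1, Nat.mod_eq_of_lt h3]
  · exfalso
    have h4 : x.val + 1 = ℓ := by omega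
    rw [h4, Nat.mod_self] at h1
    exact hx ((ZMod.val_eq_zero _).1 h1)

lemma dist_succ (q i : ZMod ℓ) (h : i + 1 ≠ q) : (i + 1 - q).val = (i - q).val + 1 := by
  have h1 : i + 1 - q = (i - q) + 1 := by ring
  rw [h1]
  apply val_succ
  rw [← h1]
  exact sub_ne_zero.2 h

lemma dist_inj {q i j : ZMod ℓ} (h : (i - q).val = (j - q).val) : i = j := by
  have := ZMod.val_injective ℓ h
  exact sub_left_injective this

/-- the moving arcs function. -/
noncomputable def chi (L : ℝ) (V : ZMod ℓ → ℝ) (i : ZMod ℓ) : ℝ :=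
  univ.sup' univ_nonempty (fun q : ZMod ℓ => max 0 (min 1 (L * V q - ((i - q).val : ℝ))))

lemma le_chi (L : ℝ) (V : ZMod ℓ → ℝ) (i q : ZMod ℓ) :
    max 0 (min 1 (L * V q - ((i - q).val : ℝ))) ≤ chi L V i :=
  Finset.le_sup' (fun q : ZMod ℓ => max 0 (min 1 (L * V q - ((i - q).val : ℝ)))) (Finset.mem_univ q)

lemma exists_chi (L : ℝ) (V : ZMod ℓ → ℝ) (i : ZMod ℓ) :
    ∃ q, chi L V i = max 0 (min 1 (L * V q - ((i - q).val : ℝ))) := by
  obtain ⟨q, _, hq⟩ := Finset.exists_mem_eq_sup' (univ_nonempty (α := ZMod ℓ))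
    (fun q : ZMod ℓ => max 0 (min 1 (L * V q - ((i - q).val : ℝ))))
  exact ⟨q, hq⟩

lemma chi_nonneg (L : ℝ) (V : ZMod ℓ → ℝ) (i : ZMod ℓ) : 0 ≤ chi L V i :=
  (le_max_left _ _).trans (le_chi L V i i)

lemma chi_le_one (L : ℝ) (V : ZMod ℓ → ℝ) (i : ZMod ℓ) : chi L V i ≤ 1 := by
  obtain ⟨q, hq⟩ := exists_chi L V i
  rw [hq]
  exact max_le zero_le_one (min_le_left _ _)

lemma chi_zero (V : ZMod ℓ → ℝ) (i : ZMod ℓ) : chi 0 V i = 0 := by
  obtain ⟨q, hq⟩ := exists_chi 0 V i
  rw [hq]
  apply max_eq_left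
  refine (min_le_right _ _).trans ?_
  have : (0 : ℝ) ≤ ((i - q).val : ℝ) := Nat.cast_nonneg _
  linarith

lemma chi_full (V : ZMod ℓ → ℝ) (hV : ∃ q, 1 ≤ V q) (i : ZMod ℓ) : chi (ℓ : ℝ) V i = 1 := by
  obtain ⟨q, hq⟩ := hV
  apply le_antisymm (chi_le_one _ _ _)
  refine le_trans ?_ (le_chi (ℓ : ℝ) V i q)
  apply le_max_of_le_right
  apply le_min le_rfl
  have h1 : (i - q).val + 1 ≤ ℓ := ZMod.val_lt (i - q)
  have h2 : (((i - q).val : ℕ) : ℝ) + 1 ≤ ℓ := by exact_mod_cast h1
  have h3 : (ℓ : ℝ) * 1 ≤ (ℓ : ℝ) * V q := mul_le_mul_of_nonneg_left hq (Nat.cast_nonneg _)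
  linarith

lemma chi_pos {L : ℝ} {V : ZMod ℓ → ℝ} {i : ZMod ℓ} (h : 0 < chi L V i) :
    ∃ q, ((i - q).val : ℝ) < L * V q := by
  obtain ⟨q, hq⟩ := exists_chi L V i
  rw [hq, lt_max_iff] at h
  rcases h with h | h
  · exact absurd h (lt_irrefl _)
  · refine ⟨q, ?_⟩
    have := (lt_min_iff.1 h).2
    linarith

lemma chi_lt_one {L : ℝ} {V : ZMod ℓ → ℝ} {i : ZMod ℓ} (h : chi L V i < 1) (q : ZMod ℓ) :
    L * V q < 1 + ((i - q).val : ℝ) := by
  by_contra hcon
  push Not at hcon
  have h1 := le_chi L V i q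
  have h2 : (1 : ℝ) ≤ max 0 (min 1 (L * V q - ((i - q).val : ℝ))) := by
    apply le_max_of_le_right
    apply le_min le_rfl
    linarith
  linarith

lemma chi_ascent (L : ℝ) (V : ZMod ℓ → ℝ) (i : ZMod ℓ) (hV : V (i + 1) = 0) :
    chi L V (i + 1) ≤ chi L V i := by
  obtain ⟨q, hq⟩ := exists_chi L V (i + 1)
  rw [hq]
  by_cases h : i + 1 = q
  · subst h
    rw [hV]
    apply max_le (chi_nonneg _ _ _)
    refine (min_le_right _ _).trans ?_
    simp only [mul_zero, sub_self, ZMod.val_zero, Nat.cast_zero]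
    exact chi_nonneg _ _ _
  · refine le_trans ?_ (le_chi L V i q)
    rw [dist_succ q i h]
    apply max_le_max le_rfl
    apply min_le_min le_rfl
    push_cast
    linarith

/-- at most `m` descents in every compatible 0/1 sequence. -/
def DescLE (m : ℕ) (χ : ZMod ℓ → ℝ) : Prop :=
  ∀ z : ZMod ℓ → Bool, (∀ i, z i = true → 0 < χ i) → (∀ i, z i = false → χ i < 1) →
    (univ.filter (fun i => z i = true ∧ z (i + 1) = false)).card ≤ m

theorem descLE_chi (m : ℕ) (L : ℝ) (hL : 0 ≤ L) (V : ZMod ℓ → ℝ) (J : ZMod ℓ → Fin m)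
    (hJ : ∀ q q', 0 < V q → 0 < V q' → J q = J q' → q' = q ∨ q' = q + 1 ∨ q = q' + 1) :
    DescLE m (chi L V) := by
  classical
  intro z hz1 hz2
  set S := univ.filter (fun i => z i = true ∧ z (i + 1) = false) with hS
  have hmem : ∀ i, i ∈ S ↔ z i = true ∧ z (i + 1) = false := by
    intro i; simp [hS]
  have hserve : ∀ i, i ∈ S → ∃ q, 0 < V q ∧ ((i - q).val : ℝ) < L * V q := by
    intro i hi
    obtain ⟨q, hq⟩ := chi_pos (hz1 i ((hmem i).1 hi).1)
    refine ⟨q, ?_, hq⟩
    have h0 : (0 : ℝ) ≤ ((i - q).val : ℝ) := Nat.cast_nonneg _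
    by_contra hcon
    push Not at hcon
    have : L * V q ≤ 0 := mul_nonpos_of_nonneg_of_nonpos hL hcon
    linarith
  choose! q hqV hq using hserve
  -- key strict inequality
  have hkey : ∀ i ∈ S, ∀ j ∈ S, (i - q i).val < (j + 1 - q i).val := by
    intro i hi j hj
    have h1 := hq i hi
    have h2 := chi_lt_one (hz2 (j + 1) ((hmem j).1 hj).2) (q i)
    have h3 : ((i - q i).val : ℝ) < 1 + ((j + 1 - q i).val : ℝ) := h1.trans h2
    have h4 : (i - q i).val < 1 + (j + 1 - q i).val := by exact_mod_cast h3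
    have h5 : (i - q i).val ≠ (j + 1 - q i).val := by
      intro h6
      have h7 := dist_inj h6
      have h8 := ((hmem i).1 hi).1
      have h9 := ((hmem j).1 hj).2
      rw [← h7, h8] at h9
      exact Bool.noConfusion h9
    omega
  have hinj : Set.InjOn (fun i => J (q i)) (S : Set (ZMod ℓ)) := by
    have hcase : ∀ i ∈ S, ∀ j ∈ S, q j = q i + 1 → i = j := by
      intro i hi j hj hqq
      by_contra hne
      have k1 := hkey i hi j hj
      have k2 := hkey j hj i hi
      have k3 := hkey i hi i hi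
      have k4 := hkey j hj j hj
      rw [hqq] at k2 k4
      -- distances relative to `r = q i`
      have e1 : (i - q i).val + 1 = (i + 1 - q i).val := by
        symm; apply dist_succ
        intro h; rw [h] at k3; simp at k3
      have e2 : (j - q i).val + 1 = (j + 1 - q i).val := by
        symm; apply dist_succ
        intro h; rw [h] at k1; simp at k1
      have e3 : i + 1 - (q i + 1) = i - q i := by ring
      have e4 : j + 1 - (q i + 1) = j - q i := by ring
      rw [e3] at k2
      rw [e4] at k4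
      have e5 : (j - (q i + 1)).val + 1 = (j - q i).val := by
        have h1 : j - q i = (j - 1) + 1 - q i := by ring
        have h2 : j - (q i + 1) = (j - 1) - q i := by ring
        rw [h1, h2]
        symm; apply dist_succ
        intro h
        have h3 : j = q i := by rw [← h]; ring
        rw [h3] at k4
        simp at k4
      have e6 : (i - q i).val = (j - q i).val := by omega
      exact hne (dist_inj e6)
    intro i hi j hj hij
    rw [Finset.mem_coe] at hi hj
    rcases hJ (q i) (q j) (hqV i hi) (hqV j hj) hij with h | h | h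
    · by_contra hne
      have k1 := hkey i hi j hj
      have k2 := hkey j hj i hi
      rw [h] at k2
      have e1 : (i + 1 - q i).val = (i - q i).val + 1 := by
        apply dist_succ
        intro h; rw [h] at k2; simp at k2
      have e2 : (j + 1 - q i).val = (j - q i).val + 1 := by
        apply dist_succ
        intro h; rw [h] at k1; simp at k1
      have e6 : (i - q i).val = (j - q i).val := by omega
      exact hne (dist_inj e6)
    · exact hcase i hi j hj h
    · exact (hcase j hj i hi h).symm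
  have := Finset.card_le_card_of_injOn (s := S) (t := (univ : Finset (Fin m)))
    (fun i => J (q i)) (fun i _ => Finset.mem_coe.2 (Finset.mem_univ _)) hinj
  simpa using this

/-- `DescLE` passes to pointwise limits. -/
theorem descLE_of_tendsto (m : ℕ) (x : ℕ → ZMod ℓ → ℝ) (χ : ZMod ℓ → ℝ)
    (hx : ∀ n, DescLE m (x n)) (hlim : ∀ i, Filter.Tendsto (fun n => x n i) Filter.atTop (nhds (χ i))) :
    DescLE m χ := by
  intro z hz1 hz2
  have h1 : ∀ᶠ n in Filter.atTop, ∀ i, z i = true → 0 < x n i := by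
    rw [Filter.eventually_all]
    intro i
    by_cases hi : z i = true
    · filter_upwards [(hlim i).eventually (lt_mem_nhds (hz1 i hi))] with n hn _
      exact hn
    · exact Filter.Eventually.of_forall (fun n h => absurd h hi)
  have h2 : ∀ᶠ n in Filter.atTop, ∀ i, z i = false → x n i < 1 := by
    rw [Filter.eventually_all]
    intro i
    by_cases hi : z i = false
    · filter_upwards [(hlim i).eventually (gt_mem_nhds (hz2 i hi))] with n hn _
      exact hn
    · exact Filter.Eventually.of_forall (fun n h => absurd h hi)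
  obtain ⟨n, hn1, hn2⟩ := (h1.and h2).exists
  exact hx n z hn1 hn2

end Pool.Agent.NH76.Neck
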