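import Mathlib

/-!
General position by perturbing along the moment curve, and a uniform gap on compact sets.
-/

namespace Pool.Agent.NH76.Neck

open Finset Polynomial Matrix Topology Filter

variable {ℓ : ℕ} [NeZero ℓ]

/-- points of the moment curve. -/
def mom (m : ℕ) (i : ZMod ℓ) (j : Fin m) : ℝ := (i.val : ℝ) ^ ((j : ℕ) + 1)

/-- the matrix with rows `(1, X Γ(s j) + mom (s j))`. -/
noncomputable def pmat (m : ℕ) (Γ : ZMod ℓ → Fin m → ℝ) (s : Fin (m + 1) → ZMod ℓ) :
    Matrix (Fin (m + 1)) (Fin (m + 1)) ℝ[X] :=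
  Matrix.of fun j c => Fin.cases 1 (fun c' => X * C (Γ (s j) c') + C (mom m (s j) c')) c

omit [NeZero ℓ] in
lemma pmat_eval (m : ℕ) (Γ : ZMod ℓ → Fin m → ℝ) (s : Fin (m + 1) → ZMod ℓ) (t : ℝ) :
    (pmat m Γ s).det.eval t =
      (Matrix.of fun j c => (Fin.cases (1 : ℝ) (fun c' => t * Γ (s j) c' + mom m (s j) c') c : ℝ)).det := by
  rw [← Polynomial.coe_evalRingHom, RingHom.map_det]
  congr 1
  ext j c
  refine Fin.cases ?_ (fun c' => ?_) c
  · simp [pmat]
  · simp only [pmat, RingHom.mapMatrix_apply, Matrix.map_apply, Matrix.of_apply, Fin.cases_succ,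
      Polynomial.coe_evalRingHom, Polynomial.eval_add, Polynomial.eval_mul, Polynomial.eval_X,
      Polynomial.eval_C]

lemma pmat_ne_zero (m : ℕ) (Γ : ZMod ℓ → Fin m → ℝ) (s : Fin (m + 1) → ZMod ℓ)
    (hs : Function.Injective s) : (pmat m Γ s).det ≠ 0 := by
  intro h0
  have h1 := pmat_eval m Γ s 0
  rw [h0, Polynomial.eval_zero] at h1
  have h2 : (Matrix.of fun j c => (Fin.cases (1 : ℝ) (fun c' => 0 * Γ (s j) c' + mom m (s j) c') c : ℝ))
      = Matrix.vandermonde (fun j => ((s j).val : ℝ)) := by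
    ext j c
    refine Fin.cases ?_ (fun c' => ?_) c
    · simp [Matrix.vandermonde]
    · simp [Matrix.vandermonde, mom]
  rw [h2] at h1
  have h3 : (Matrix.vandermonde (fun j => ((s j).val : ℝ))).det ≠ 0 := by
    rw [Matrix.det_vandermonde_ne_zero_iff]
    intro i j hij
    apply hs
    apply ZMod.val_injective ℓ
    have hij' : ((s i).val : ℝ) = ((s j).val : ℝ) := hij
    exact_mod_cast hij'
  exact h3 h1.symm

/-- linear functional values. -/
noncomputable def fval {m : ℕ} (Γ : ZMod ℓ → Fin m → ℝ) (y : Fin m → ℝ) (s : ZMod ℓ) : ℝ :=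
  ∑ c, y c * Γ s c

/-- maximum of the functional values. -/
noncomputable def fmax {m : ℕ} (Γ : ZMod ℓ → Fin m → ℝ) (y : Fin m → ℝ) : ℝ :=
  univ.sup' univ_nonempty (fval Γ y)

theorem genpos (m : ℕ) (Γ : ZMod ℓ → Fin m → ℝ) :
    ∀ᶠ t : ℝ in Filter.atTop, ∀ s : Fin (m + 1) → ZMod ℓ, Function.Injective s →
      ∀ (u : Fin m → ℝ) (M : ℝ),
        (∀ j, fval (fun i c => Γ i c + t⁻¹ * mom m i c) u (s j) = M) → u = 0 := by
  classical
  rw [Filter.eventually_all]
  intro s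
  by_cases hs : Function.Injective s
  swap
  · exact Filter.Eventually.of_forall (fun t h => absurd h hs)
  filter_upwards [Polynomial.eventually_atTop_not_isRoot _ (pmat_ne_zero m Γ s hs),
    Filter.eventually_gt_atTop (0 : ℝ)] with t ht htpos _ u M hM
  rw [Polynomial.IsRoot.def, pmat_eval] at ht
  have hz := Matrix.eq_zero_of_mulVec_eq_zero ht (v := Fin.cons (-(t * M)) u) (by
    ext j
    simp only [Matrix.mulVec, dotProduct, Matrix.of_apply, Pi.zero_apply]
    rw [Fin.sum_univ_succ]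
    simp only [Fin.cases_zero, Fin.cons_zero, Fin.cases_succ, Fin.cons_succ, one_mul]
    have h1 := hM j
    simp only [fval] at h1
    rw [← h1, Finset.mul_sum, ← Finset.sum_neg_distrib, ← Finset.sum_add_distrib]
    apply Finset.sum_eq_zero
    intro c _
    have h2 : t * t⁻¹ = 1 := mul_inv_cancel₀ htpos.ne'
    have h3 : t * (u c * (Γ (s j) c + t⁻¹ * mom m (s j) c)) =
        u c * (t * Γ (s j) c + (t * t⁻¹) * mom m (s j) c) := by ring
    rw [h3, h2]
    ring)
  ext c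
  have h4 := congrFun hz c.succ
  simpa using h4

omit [NeZero ℓ] in
lemma continuous_fval {m : ℕ} (Γ : ZMod ℓ → Fin m → ℝ) (s : ZMod ℓ) :
    Continuous (fun y => fval Γ y s) := by
  unfold fval
  fun_prop

lemma continuous_fmax {m : ℕ} (Γ : ZMod ℓ → Fin m → ℝ) :
    Continuous (fun y => fmax Γ y) := by
  unfold fmax
  exact Continuous.finset_sup'_apply _ (fun s _ => continuous_fval Γ s)

lemma fval_le_fmax {m : ℕ} (Γ : ZMod ℓ → Fin m → ℝ) (y : Fin m → ℝ) (s : ZMod ℓ) :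
    fval Γ y s ≤ fmax Γ y :=
  Finset.le_sup' (fval Γ y) (Finset.mem_univ s)

lemma exists_fmax {m : ℕ} (Γ : ZMod ℓ → Fin m → ℝ) (y : Fin m → ℝ) :
    ∃ s, fval Γ y s = fmax Γ y := by
  obtain ⟨q, _, hq⟩ := Finset.exists_mem_eq_sup' (univ_nonempty (α := ZMod ℓ)) (fval Γ y)
  exact ⟨q, hq.symm⟩

theorem exists_delta {m : ℕ} (Γ : ZMod ℓ → Fin m → ℝ)
    (hgen : ∀ s : Fin (m + 1) → ZMod ℓ, Function.Injective s →
      ∀ (u : Fin m → ℝ) (M : ℝ), (∀ j, fval Γ u (s j) = M) → u = 0)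
    (K : Set (Fin m → ℝ)) (hK : IsCompact K) (h0 : (0 : Fin m → ℝ) ∉ K) (ε : ℝ) (hε : 0 < ε) :
    ∃ δ : ℝ, 0 < δ ∧ δ < ε ∧
      ∀ y ∈ K, (univ.filter (fun s => fmax Γ y - δ < fval Γ y s)).card ≤ m := by
  classical
  have hmain : ∀ᶠ δ : ℝ in 𝓝[>] 0, ∀ s : Fin (m + 1) → ZMod ℓ, Function.Injective s →
      ∀ y ∈ K, ((m : ℝ) + 1) * δ < ∑ j, (fmax Γ y - fval Γ y (s j)) := by
    rw [Filter.eventually_all]
    intro s
    by_cases hs : Function.Injective s
    swap
    · exact Filter.Eventually.of_forall (fun t h => absurd h hs)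
    obtain ⟨c, hc, hcK⟩ := hK.exists_forall_le' (f := fun y => ∑ j, (fmax Γ y - fval Γ y (s j)))
      (a := 0) (by
        apply Continuous.continuousOn
        apply continuous_finsetSum
        intro j _
        exact (continuous_fmax Γ).sub (continuous_fval Γ (s j))) (by
        intro y hy
        have hnn : ∀ j ∈ (univ : Finset (Fin (m + 1))), 0 ≤ fmax Γ y - fval Γ y (s j) := by
          intro j _
          linarith [fval_le_fmax Γ y (s j)]
        rcases (Finset.sum_nonneg hnn).lt_or_eq with h | h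
        · exact h
        · exfalso
          have h1 := (Finset.sum_eq_zero_iff_of_nonneg hnn).1 h.symm
          have h2 : y = 0 := hgen s hs y (fmax Γ y) (fun j => by
            have := h1 j (Finset.mem_univ j)
            linarith)
          rw [h2] at hy
          exact h0 hy)
    have h3 : ∀ᶠ δ : ℝ in 𝓝[>] 0, ((m : ℝ) + 1) * δ < c := by
      have h4 : Tendsto (fun δ : ℝ => ((m : ℝ) + 1) * δ) (𝓝[>] 0) (𝓝 (((m : ℝ) + 1) * 0)) :=
        ((continuous_const.mul continuous_id).tendsto (0 : ℝ)).mono_left nhdsWithin_le_nhds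
      exact h4.eventually (gt_mem_nhds (by simpa using hc))
    filter_upwards [h3] with δ hδ _ y hy
    exact hδ.trans_le (hcK y hy)
  have hε' : ∀ᶠ δ : ℝ in 𝓝[>] 0, δ < ε :=
    (gt_mem_nhds hε : ∀ᶠ δ in 𝓝 (0 : ℝ), δ < ε).filter_mono nhdsWithin_le_nhds
  obtain ⟨δ, ⟨h1, h2⟩, h3⟩ := ((hmain.and hε').and (self_mem_nhdsWithin : ∀ᶠ δ : ℝ in 𝓝[>] 0, δ ∈ Set.Ioi 0)).exists
  refine ⟨δ, h3, h2, ?_⟩
  intro y hy
  by_contra hcon
  push Not at hcon
  have h4 : Fintype.card (Fin (m + 1)) ≤ Fintype.card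
      (↥(univ.filter (fun s => fmax Γ y - δ < fval Γ y s))) := by
    rw [Fintype.card_fin, Fintype.card_coe]; omega
  obtain ⟨e⟩ := Function.Embedding.nonempty_of_card_le h4
  have h5 := h1 (fun j => (e j : ZMod ℓ)) (fun i j hij => e.injective (Subtype.ext hij)) y hy
  have h6 : ∑ j : Fin (m + 1), (fmax Γ y - fval Γ y (e j : ZMod ℓ)) ≤ ∑ _j : Fin (m + 1), δ := by
    apply Finset.sum_le_sum
    intro j _
    have := (Finset.mem_filter.1 (e j).2).2
    linarith
  rw [Finset.sum_const, Finset.card_univ, Fintype.card_fin, nsmul_eq_mul] at h6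
  push_cast at h6
  linarith

end Pool.Agent.NH76.Neck
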