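import Mathlib
import Pool.Agent.Helper133.Brouwer
import Pool.Agent.NH76.Neck.Desc
import Pool.Agent.NH76.Neck.GenPos

/-!
The fixed point argument.
-/

namespace Pool.Agent.NH76.Neck

open Finset Topology Filter

variable {ℓ : ℕ} [NeZero ℓ]

/-- near maximality weight. -/
noncomputable def nw {m : ℕ} (δ : ℝ) (Γ : ZMod ℓ → Fin m → ℝ) (y : Fin m → ℝ) (s : ZMod ℓ) : ℝ :=
  max 0 (min 1 (1 - (fmax Γ y - fval Γ y s) / δ))

/-- the hat function. -/
noncomputable def hat (x : ℝ) : ℝ := max 0 (min 1 (2 - 2 * |x|))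

/-- weights of the starting points. -/
noncomputable def wt {m : ℕ} (δ : ℝ) (Γ : ZMod ℓ → Fin m → ℝ) (y : Fin m → ℝ) (q : ZMod ℓ) : ℝ :=
  univ.sup' univ_nonempty
    (fun s : ZMod ℓ => nw δ Γ y s * hat (‖y‖ * (s.val : ℝ) - (q.val : ℝ)))

lemma hat_nonneg (x : ℝ) : 0 ≤ hat x := le_max_left _ _

lemma nw_nonneg {m : ℕ} (δ : ℝ) (Γ : ZMod ℓ → Fin m → ℝ) (y : Fin m → ℝ) (s : ZMod ℓ) :
    0 ≤ nw δ Γ y s := le_max_left _ _

lemma hat_pos {x : ℝ} (h : 0 < hat x) : |x| < 1 := by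
  unfold hat at h
  rcases lt_max_iff.1 h with h | h
  · exact absurd h (lt_irrefl _)
  · have := (lt_min_iff.1 h).2
    linarith

lemma nw_pos {m : ℕ} {δ : ℝ} (hδ : 0 < δ) {Γ : ZMod ℓ → Fin m → ℝ} {y : Fin m → ℝ} {s : ZMod ℓ}
    (h : 0 < nw δ Γ y s) : fmax Γ y - δ < fval Γ y s := by
  unfold nw at h
  rcases lt_max_iff.1 h with h | h
  · exact absurd h (lt_irrefl _)
  · have h1 := (lt_min_iff.1 h).2
    have h2 : (fmax Γ y - fval Γ y s) / δ < 1 := by linarith
    rw [div_lt_one hδ] at h2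
    linarith

lemma wt_nonneg {m : ℕ} (δ : ℝ) (Γ : ZMod ℓ → Fin m → ℝ) (y : Fin m → ℝ) (q : ZMod ℓ) :
    0 ≤ wt δ Γ y q := by
  refine le_trans (mul_nonneg (nw_nonneg δ Γ y 0) (hat_nonneg _)) (Finset.le_sup'
    (fun s : ZMod ℓ => nw δ Γ y s * hat (‖y‖ * (s.val : ℝ) - (q.val : ℝ))) (Finset.mem_univ 0))

lemma wt_pos {m : ℕ} {δ : ℝ} (hδ : 0 < δ) {Γ : ZMod ℓ → Fin m → ℝ} {y : Fin m → ℝ} {q : ZMod ℓ}
    (h : 0 < wt δ Γ y q) : ∃ s : ZMod ℓ, fmax Γ y - δ < fval Γ y s ∧
      |‖y‖ * (s.val : ℝ) - (q.val : ℝ)| < 1 := by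
  obtain ⟨s, _, hs⟩ := Finset.exists_mem_eq_sup' (univ_nonempty (α := ZMod ℓ))
    (fun s : ZMod ℓ => nw δ Γ y s * hat (‖y‖ * (s.val : ℝ) - (q.val : ℝ)))
  have h1 : 0 < nw δ Γ y s * hat (‖y‖ * (s.val : ℝ) - (q.val : ℝ)) := by
    rw [← hs]; exact h
  have h2 : 0 < nw δ Γ y s := by
    rcases (nw_nonneg δ Γ y s).eq_or_lt with h3 | h3
    · rw [← h3, zero_mul] at h1; exact absurd h1 (lt_irrefl _)
    · exact h3
  have h3 : 0 < hat (‖y‖ * (s.val : ℝ) - (q.val : ℝ)) := by
    rcases (hat_nonneg (‖y‖ * (s.val : ℝ) - (q.val : ℝ))).eq_or_lt with h4 | h4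
    · rw [← h4, mul_zero] at h1; exact absurd h1 (lt_irrefl _)
    · exact h4
  exact ⟨s, nw_pos hδ h2, hat_pos h3⟩

lemma exists_wt {m : ℕ} (δ : ℝ) (Γ : ZMod ℓ → Fin m → ℝ) (y : Fin m → ℝ) (hy : ‖y‖ ≤ 1) :
    ∃ q, 1 ≤ wt δ Γ y q := by
  obtain ⟨s, hs⟩ := exists_fmax Γ y
  have hv : nw δ Γ y s = 1 := by
    unfold nw
    rw [hs, sub_self, zero_div, sub_zero, min_self]
    exact max_eq_right zero_le_one
  set x : ℝ := ‖y‖ * (s.val : ℝ) with hx
  have hx0 : 0 ≤ x := mul_nonneg (norm_nonneg _) (Nat.cast_nonneg _)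
  have hx1 : x + 1 ≤ ℓ := by
    have h1 : s.val + 1 ≤ ℓ := ZMod.val_lt s
    have h2 : ((s.val : ℕ) : ℝ) + 1 ≤ ℓ := by exact_mod_cast h1
    have h3 : x ≤ 1 * (s.val : ℝ) := mul_le_mul_of_nonneg_right hy (Nat.cast_nonneg _)
    linarith
  set n : ℕ := ⌊x + 1 / 2⌋₊ with hn
  have hn1 : (n : ℝ) ≤ x + 1 / 2 := Nat.floor_le (by linarith)
  have hn2 : x + 1 / 2 < n + 1 := Nat.lt_floor_add_one _
  have hnl : n < ℓ := by
    have : (n : ℝ) < ℓ := by linarith
    exact_mod_cast this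
  refine ⟨(n : ZMod ℓ), ?_⟩
  have hval : ((n : ZMod ℓ)).val = n := ZMod.val_natCast_of_lt hnl
  refine le_trans ?_ (Finset.le_sup'
    (fun s : ZMod ℓ => nw δ Γ y s * hat (‖y‖ * (s.val : ℝ) - (((n : ZMod ℓ)).val : ℝ)))
      (Finset.mem_univ s))
  rw [hv, hval, ← hx, one_mul]
  unfold hat
  apply le_max_of_le_right
  apply le_min le_rfl
  have : |x - n| ≤ 1 / 2 := by
    rw [abs_le]; constructor <;> linarith
  linarith

lemma eq_succ_of_val {q q' : ZMod ℓ} (h : q'.val = q.val + 1) : q' = q + 1 := by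
  have h1 : ((q'.val : ℕ) : ZMod ℓ) = q' := ZMod.natCast_zmod_val q'
  have h2 : ((q.val : ℕ) : ZMod ℓ) = q := ZMod.natCast_zmod_val q
  rw [← h1, h, Nat.cast_add, h2, Nat.cast_one]

lemma near {q q' : ZMod ℓ} {x : ℝ} (h : |x - (q.val : ℝ)| < 1) (h' : |x - (q'.val : ℝ)| < 1) :
    q' = q ∨ q' = q + 1 ∨ q = q' + 1 := by
  rw [abs_lt] at h h'
  have h1 : (q.val : ℝ) < (q'.val : ℝ) + 2 := by linarith
  have h2 : (q'.val : ℝ) < (q.val : ℝ) + 2 := by linarith
  have h3 : q.val < q'.val + 2 := by exact_mod_cast h1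
  have h4 : q'.val < q.val + 2 := by exact_mod_cast h2
  have h5 : q'.val = q.val ∨ q'.val = q.val + 1 ∨ q.val = q'.val + 1 := by omega
  rcases h5 with h5 | h5 | h5
  · exact Or.inl (ZMod.val_injective ℓ h5)
  · exact Or.inr (Or.inl (eq_succ_of_val h5))
  · exact Or.inr (Or.inr (eq_succ_of_val h5))

lemma wt_supp {m : ℕ} (hm : 0 < m) {δ : ℝ} (hδ : 0 < δ) (Γ : ZMod ℓ → Fin m → ℝ)
    (hcard : ∀ y : Fin m → ℝ, 1 / (2 * (ℓ : ℝ)) ≤ ‖y‖ → ‖y‖ ≤ 1 →
      (univ.filter (fun s => fmax Γ y - δ < fval Γ y s)).card ≤ m)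
    (y : Fin m → ℝ) (hy : ‖y‖ ≤ 1) :
    ∃ J : ZMod ℓ → Fin m, ∀ q q', 0 < wt δ Γ y q → 0 < wt δ Γ y q' → J q = J q' →
      q' = q ∨ q' = q + 1 ∨ q = q' + 1 := by
  classical
  have hlpos : (0 : ℝ) < ℓ := by exact_mod_cast NeZero.pos ℓ
  by_cases hs : ‖y‖ < 1 / (2 * (ℓ : ℝ))
  · refine ⟨fun _ => ⟨0, hm⟩, ?_⟩
    have key : ∀ q, 0 < wt δ Γ y q → |(1 / 2 : ℝ) - (q.val : ℝ)| < 1 := by
      intro q hq
      obtain ⟨s, _, h2⟩ := wt_pos hδ hq
      have h3 : s.val < ℓ := ZMod.val_lt s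
      have h4 : (s.val : ℝ) ≤ ℓ := by exact_mod_cast h3.le
      have h5 : ‖y‖ * (s.val : ℝ) ≤ 1 / (2 * (ℓ : ℝ)) * ℓ :=
        mul_le_mul hs.le h4 (Nat.cast_nonneg _) (by positivity)
      have h6 : 1 / (2 * (ℓ : ℝ)) * ℓ = 1 / 2 := by field_simp
      rw [h6] at h5
      rw [abs_lt] at h2
      have h7 : (q.val : ℝ) < 3 / 2 := by linarith
      have h8 : (0 : ℝ) ≤ (q.val : ℝ) := Nat.cast_nonneg _
      rw [abs_lt]
      have h9 : q.val < 2 := by
        by_contra hcon
        push Not at hcon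
        have : (2 : ℝ) ≤ (q.val : ℝ) := by exact_mod_cast hcon
        linarith
      have h10 : (q.val : ℝ) ≤ 1 := by
        have : q.val ≤ 1 := by omega
        exact_mod_cast this
      constructor <;> linarith
    intro q q' hq hq' _
    exact near (key q hq) (key q' hq')
  · push Not at hs
    have hc := hcard y hs hy
    set N := univ.filter (fun s => fmax Γ y - δ < fval Γ y s) with hN
    have hcN : Fintype.card N ≤ Fintype.card (Fin m) := by
      rw [Fintype.card_coe, Fintype.card_fin]; exact hc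
    obtain ⟨e⟩ := Function.Embedding.nonempty_of_card_le hcN
    have hex : ∀ q, 0 < wt δ Γ y q → ∃ s : N, |‖y‖ * ((s : ZMod ℓ).val : ℝ) - (q.val : ℝ)| < 1 := by
      intro q hq
      obtain ⟨s, h1, h2⟩ := wt_pos hδ hq
      exact ⟨⟨s, by rw [hN, Finset.mem_filter]; exact ⟨Finset.mem_univ _, h1⟩⟩, h2⟩
    refine ⟨fun q => if hq : 0 < wt δ Γ y q then e (Classical.choose (hex q hq)) else ⟨0, hm⟩, ?_⟩
    intro q q' hq hq' hJ
    simp only [dif_pos hq, dif_pos hq'] at hJ
    have h1 := e.injective hJ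
    have h2 := Classical.choose_spec (hex q hq)
    have h3 := Classical.choose_spec (hex q' hq')
    rw [← h1] at h3
    exact near h2 h3

lemma wt_boundary {m : ℕ} {δ : ℝ} (hδ : 0 < δ) (Γ : ZMod ℓ → Fin m → ℝ)
    (y : Fin m → ℝ) (hy : ‖y‖ = 1) (q : ZMod ℓ) (hq : 0 < wt δ Γ y q) :
    fmax Γ y - δ < fval Γ y q := by
  obtain ⟨s, h1, h2⟩ := wt_pos hδ hq
  rw [hy, one_mul] at h2
  have h3 : |((s.val : ℤ) : ℝ) - ((q.val : ℤ) : ℝ)| < 1 := by exact_mod_cast h2
  have h4 : |(s.val : ℤ) - (q.val : ℤ)| < 1 := by exact_mod_cast h3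
  have h5 : (s.val : ℤ) - (q.val : ℤ) = 0 := Int.abs_lt_one_iff.1 h4
  have h6 : s.val = q.val := by omega
  have h7 : s = q := ZMod.val_injective ℓ h6
  rw [← h7]; exact h1

/-- displacement of the selection in direction `y`. -/
lemma boundary_est {m : ℕ} {δ : ℝ} (hδ : 0 < δ) (Γ : ZMod ℓ → Fin m → ℝ)
    (y : Fin m → ℝ) (hy : ‖y‖ = 1) (L : ℝ) :
    ∑ i, chi L (wt δ Γ y) i * (fval Γ y (i + 1) - fval Γ y i) ≤ ℓ * δ := by
  set χ := chi L (wt δ Γ y) with hχ
  have h1 : ∑ i, χ i * (fval Γ y (i + 1) - fval Γ y i) =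
      ∑ i, (fmax Γ y - fval Γ y (i + 1)) * (χ (i + 1) - χ i) := by
    have h2 := Equiv.sum_comp (Equiv.addRight (1 : ZMod ℓ)) (fun i => χ i * (fmax Γ y - fval Γ y i))
    simp only [Equiv.coe_addRight] at h2
    have h3 : ∑ i, (fmax Γ y - fval Γ y (i + 1)) * (χ (i + 1) - χ i) =
        ∑ i, χ (i + 1) * (fmax Γ y - fval Γ y (i + 1)) -
          ∑ i, χ i * (fmax Γ y - fval Γ y (i + 1)) := by
      rw [← Finset.sum_sub_distrib]
      apply Finset.sum_congr rfl
      intro i _; ring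
    rw [h3, h2, ← Finset.sum_sub_distrib]
    apply Finset.sum_congr rfl
    intro i _; ring
  rw [h1]
  have h4 : ∑ i : ZMod ℓ, (fmax Γ y - fval Γ y (i + 1)) * (χ (i + 1) - χ i) ≤ ∑ _i : ZMod ℓ, δ := by
    apply Finset.sum_le_sum
    intro i _
    have h5 : 0 ≤ fmax Γ y - fval Γ y (i + 1) := by linarith [fval_le_fmax Γ y (i + 1)]
    rcases (wt_nonneg δ Γ y (i + 1)).eq_or_lt with h6 | h6
    · have h7 := chi_ascent L (wt δ Γ y) i h6.symm
      have h8 : χ (i + 1) - χ i ≤ 0 := by rw [hχ]; linarith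
      exact (mul_nonpos_of_nonneg_of_nonpos h5 h8).trans hδ.le
    · have h7 := wt_boundary hδ Γ y hy (i + 1) h6
      have h8 : χ (i + 1) - χ i ≤ 1 := by
        have := chi_le_one L (wt δ Γ y) (i + 1)
        have := chi_nonneg L (wt δ Γ y) i
        rw [hχ]; linarith
      calc (fmax Γ y - fval Γ y (i + 1)) * (χ (i + 1) - χ i)
          ≤ (fmax Γ y - fval Γ y (i + 1)) * 1 := mul_le_mul_of_nonneg_left h8 h5
        _ ≤ δ := by linarith
  refine h4.trans ?_
  rw [Finset.sum_const, Finset.card_univ, ZMod.card, nsmul_eq_mul]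

lemma continuous_nw {m : ℕ} (δ : ℝ) (Γ : ZMod ℓ → Fin m → ℝ) (s : ZMod ℓ) :
    Continuous (fun y => nw δ Γ y s) := by
  unfold nw
  exact continuous_const.max (continuous_const.min
    (continuous_const.sub (((continuous_fmax Γ).sub (continuous_fval Γ s)).div_const δ)))

lemma continuous_wt {m : ℕ} (δ : ℝ) (Γ : ZMod ℓ → Fin m → ℝ) (q : ZMod ℓ) :
    Continuous (fun y => wt δ Γ y q) := by
  unfold wt
  apply Continuous.finset_sup'_apply
  intro s _
  apply (continuous_nw δ Γ s).mul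
  unfold hat
  fun_prop

lemma continuous_chi {m : ℕ} (δ : ℝ) (Γ : ZMod ℓ → Fin m → ℝ) (i : ZMod ℓ) :
    Continuous (fun p : (Fin m → ℝ) × ℝ => chi (p.2 * ℓ) (wt δ Γ p.1) i) := by
  unfold chi
  apply Continuous.finset_sup'_apply
  intro q _
  apply continuous_const.max
  apply continuous_const.min
  apply Continuous.sub _ continuous_const
  exact (continuous_snd.mul continuous_const).mul ((continuous_wt δ Γ q).comp continuous_fst)

theorem approx {m : ℕ} (hm : 0 < m) (Γ : ZMod ℓ → Fin m → ℝ)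
    (hgen : ∀ s : Fin (m + 1) → ZMod ℓ, Function.Injective s →
      ∀ (u : Fin m → ℝ) (M : ℝ), (∀ j, fval Γ u (s j) = M) → u = 0)
    (lam : ZMod ℓ → ℝ) (hlam : ∑ i, lam i = 1) (α : ℝ) (hα0 : 0 ≤ α) (hα1 : α ≤ 1)
    (ε : ℝ) (hε : 0 < ε) :
    ∃ χ : ZMod ℓ → ℝ, (∀ i, 0 ≤ χ i) ∧ (∀ i, χ i ≤ 1) ∧ DescLE m χ ∧
      (∑ i, χ i * lam i = α) ∧ ∀ c, |∑ i, χ i * (Γ (i + 1) c - Γ i c)| ≤ ε := by
  classical
  have hlpos : (0 : ℝ) < ℓ := by exact_mod_cast NeZero.pos ℓ
  set K : Set (Fin m → ℝ) := {y | 1 / (2 * (ℓ : ℝ)) ≤ ‖y‖ ∧ ‖y‖ ≤ 1} with hKdef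
  have hK : IsCompact K := by
    have h1 : K = Metric.closedBall (0 : Fin m → ℝ) 1 ∩ {y | 1 / (2 * (ℓ : ℝ)) ≤ ‖y‖} := by
      ext y
      simp only [hKdef, Set.mem_ofPred_eq, Set.mem_inter_iff, mem_closedBall_zero_iff]
      exact and_comm
    rw [h1]
    exact (isCompact_closedBall _ _).inter_right (isClosed_le continuous_const continuous_norm)
  have h0K : (0 : Fin m → ℝ) ∉ K := by
    simp only [hKdef, Set.mem_ofPred_eq, norm_zero, not_and]
    intro h
    have : 0 < 1 / (2 * (ℓ : ℝ)) := by positivity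
    linarith
  obtain ⟨δ, hδ, hδε, hδK⟩ := exists_delta Γ hgen K hK h0K (ε / ℓ) (div_pos hε hlpos)
  have hcard : ∀ y : Fin m → ℝ, 1 / (2 * (ℓ : ℝ)) ≤ ‖y‖ → ‖y‖ ≤ 1 →
      (univ.filter (fun s => fmax Γ y - δ < fval Γ y s)).card ≤ m :=
    fun y h1 h2 => hδK y ⟨h1, h2⟩
  let X : (Fin m → ℝ) × ℝ → ZMod ℓ → ℝ := fun p i => chi (p.2 * ℓ) (wt δ Γ p.1) i
  have hX : ∀ i, Continuous (fun p => X p i) := fun i => continuous_chi δ Γ i
  let G : (Fin m → ℝ) × ℝ → Fin m → ℝ := fun p c => ∑ i, X p i * (Γ (i + 1) c - Γ i c)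
  let S : (Fin m → ℝ) × ℝ → ℝ := fun p => ∑ i, X p i * lam i
  have hG : ∀ c, Continuous (fun p => G p c) := by
    intro c
    apply continuous_finsetSum
    intro i _
    exact (hX i).mul continuous_const
  have hS : Continuous S := by
    apply continuous_finsetSum
    intro i _
    exact (hX i).mul continuous_const
  let T : (Fin m → ℝ) × ℝ → (Fin m → ℝ) × ℝ := fun p =>
    (fun c => max (-1) (min 1 (p.1 c + G p c)), max 0 (min 1 (p.2 - (S p - α))))
  have hT : Continuous T := by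
    apply Continuous.prodMk
    · apply continuous_pi
      intro c
      apply continuous_const.max
      apply continuous_const.min
      exact ((continuous_apply c).comp continuous_fst).add (hG c)
    · apply continuous_const.max
      apply continuous_const.min
      exact continuous_snd.sub (hS.sub continuous_const)
  have hTb : ∀ p, ‖T p‖ ≤ 1 := by
    intro p
    rw [Prod.norm_def]
    apply max_le
    · rw [pi_norm_le_iff_of_nonneg zero_le_one]
      intro c
      rw [Real.norm_eq_abs, abs_le]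
      exact ⟨le_max_left _ _, max_le (by norm_num) (min_le_left _ _)⟩
    · rw [Real.norm_eq_abs, abs_le]
      exact ⟨le_trans (by norm_num) (le_max_left _ _), max_le (by norm_num) (min_le_left _ _)⟩
  obtain ⟨p, hp⟩ := Pool.Agent.Helper133.Brouwer.brouwer T hT 1 hTb
  have hp1 : ∀ c, max (-1) (min 1 (p.1 c + G p c)) = p.1 c := by
    intro c
    exact congrFun (congrArg Prod.fst hp) c
  have hp2 : max 0 (min 1 (p.2 - (S p - α))) = p.2 := congrArg Prod.snd hp
  have hyn : ‖p.1‖ ≤ 1 := by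
    have := hTb p
    rw [hp, Prod.norm_def] at this
    exact (le_max_left _ _).trans this
  have hc0 : 0 ≤ p.2 := by rw [← hp2]; exact le_max_left _ _
  have hc1 : p.2 ≤ 1 := by rw [← hp2]; exact max_le (by norm_num) (min_le_left _ _)
  -- the level equation
  have hSα : S p = α := by
    rcases hc0.eq_or_lt with h | h
    · -- c = 0
      have h1 : S p = 0 := by
        simp only [S, X]
        rw [← h, zero_mul]
        apply Finset.sum_eq_zero
        intro i _
        rw [chi_zero, zero_mul]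
      have h2 : min 1 (p.2 - (S p - α)) ≤ 0 := by
        rw [← h] at hp2 ⊢
        exact (le_max_right _ _).trans hp2.le
      rcases min_le_iff.1 h2 with h3 | h3
      · norm_num at h3
      · linarith
    · rcases hc1.eq_or_lt with h' | h'
      · have h1 : S p = 1 := by
          simp only [S, X]
          rw [h', one_mul, ← hlam]
          apply Finset.sum_congr rfl
          intro i _
          rw [chi_full _ (exists_wt δ Γ p.1 hyn), one_mul]
        have h2 : 1 ≤ p.2 - (S p - α) := by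
          by_contra hcon
          push Not at hcon
          have : max 0 (min 1 (p.2 - (S p - α))) < 1 :=
            max_lt (by norm_num) (lt_of_le_of_lt (min_le_right _ _) hcon)
          linarith
        linarith
      · have h1 : min 1 (p.2 - (S p - α)) = p.2 := by
          rcases max_choice 0 (min 1 (p.2 - (S p - α))) with h2 | h2
          · rw [h2] at hp2; linarith
          · rw [h2] at hp2; exact hp2
        rcases min_choice 1 (p.2 - (S p - α)) with h2 | h2
        · rw [h2] at h1; linarith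
        · rw [h2] at h1; linarith
  -- the displacement
  have hGabs : ∀ c, p.1 c * G p c = |G p c| ∧ (‖p.1‖ < 1 → G p c = 0) := by
    intro c
    have hle : |p.1 c| ≤ ‖p.1‖ := by
      have := norm_le_pi_norm p.1 c
      rwa [Real.norm_eq_abs] at this
    have hb := abs_le.1 (hle.trans hyn)
    have hpc := hp1 c
    rcases hb.1.eq_or_lt with h | h
    · -- y = -1
      have h1 : p.1 c = -1 := h.symm
      constructor
      · have h2 : G p c ≤ 0 := by
          by_contra hcon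
          push Not at hcon
          have h3 : -1 < min 1 (p.1 c + G p c) := lt_min (by norm_num) (by linarith)
          have h4 : -1 < max (-1) (min 1 (p.1 c + G p c)) := lt_of_lt_of_le h3 (le_max_right _ _)
          linarith
        rw [abs_of_nonpos h2, h1]; ring
      · intro h5
        have h6 : |p.1 c| = 1 := by rw [h1]; norm_num
        linarith
    · rcases hb.2.eq_or_lt with h' | h'
      · constructor
        · have h2 : 0 ≤ G p c := by
            by_contra hcon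
            push Not at hcon
            have h4 : max (-1) (min 1 (p.1 c + G p c)) < 1 :=
              max_lt (by norm_num) (lt_of_le_of_lt (min_le_right _ _) (by linarith))
            linarith
          rw [abs_of_nonneg h2, h']; ring
        · intro h5
          have h6 : |p.1 c| = 1 := by rw [h']; norm_num
          linarith
      · have h1 : min 1 (p.1 c + G p c) = p.1 c := by
          rcases max_choice (-1) (min 1 (p.1 c + G p c)) with h2 | h2
          · rw [h2] at hpc; linarith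
          · rw [h2] at hpc; exact hpc
        have h3 : G p c = 0 := by
          rcases min_choice 1 (p.1 c + G p c) with h2 | h2
          · rw [h2] at h1; linarith
          · rw [h2] at h1; linarith
        rw [h3]
        exact ⟨by simp, fun _ => rfl⟩
  refine ⟨X p, fun i => chi_nonneg _ _ _, fun i => chi_le_one _ _ _, ?_, hSα, ?_⟩
  · obtain ⟨J, hJ⟩ := wt_supp hm hδ Γ hcard p.1 hyn
    exact descLE_chi m (p.2 * ℓ) (mul_nonneg hc0 hlpos.le) (wt δ Γ p.1) J hJ
  · intro c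
    change |G p c| ≤ ε
    rcases hyn.eq_or_lt with hy | hy
    · have h1 : ∑ c, p.1 c * G p c = ∑ i, X p i * (fval Γ p.1 (i + 1) - fval Γ p.1 i) := by
        simp only [G, fval, Finset.mul_sum]
        rw [Finset.sum_comm]
        apply Finset.sum_congr rfl
        intro i _
        rw [← Finset.sum_sub_distrib, Finset.mul_sum]
        apply Finset.sum_congr rfl
        intro c _
        ring
      have h2 := boundary_est hδ Γ p.1 hy (p.2 * ℓ)
      have h3 : ∑ c, |G p c| ≤ ℓ * δ := by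
        calc ∑ c, |G p c| = ∑ c, p.1 c * G p c :=
              Finset.sum_congr rfl (fun c _ => (hGabs c).1.symm)
          _ ≤ ℓ * δ := by rw [h1]; exact h2
      have h4 : |G p c| ≤ ∑ c, |G p c| :=
        Finset.single_le_sum (f := fun c => |G p c|) (fun c _ => abs_nonneg _) (Finset.mem_univ c)
      have h5 : ℓ * δ ≤ ε := by
        rw [lt_div_iff₀ hlpos] at hδε
        linarith
      linarith
    · rw [(hGabs c).2 hy, abs_zero]; exact hε.le

end Pool.Agent.NH76.Neck
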