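import Mathlib
import Pool.Agent.NH76.Neck.Brou

/-!
The exact fractional selection by a limit argument.
-/

namespace Pool.Agent.NH76.Neck

open Finset Topology Filter

variable {ℓ : ℕ} [NeZero ℓ]

/-- partial sums. -/
noncomputable def psum {m : ℕ} (g : ZMod ℓ → Fin m → ℝ) (i : ZMod ℓ) (c : Fin m) : ℝ :=
  ∑ j ∈ univ.filter (fun j : ZMod ℓ => j.val < i.val), g j c

lemma psum_succ {m : ℕ} (g : ZMod ℓ → Fin m → ℝ) (hg : ∀ c, ∑ i, g i c = 0)
    (i : ZMod ℓ) (c : Fin m) : psum g (i + 1) c - psum g i c = g i c := by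
  classical
  unfold psum
  by_cases h : i + 1 = 0
  · have h1 : (i + 1).val = (i.val + 1) % ℓ := by
      rw [ZMod.val_add, ZMod.val_one_eq_one_mod, Nat.add_mod_mod]
    have h2 : i.val < ℓ := ZMod.val_lt i
    have h3 : i.val + 1 = ℓ := by
      by_contra hne
      have h4 : i.val + 1 < ℓ := by omega
      rw [h, ZMod.val_zero, Nat.mod_eq_of_lt h4] at h1
      omega
    have h5 : univ.filter (fun j : ZMod ℓ => j.val < (i + 1).val) = ∅ := by
      rw [h, ZMod.val_zero]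
      simp
    have h6 : univ.filter (fun j : ZMod ℓ => j.val < i.val) = univ.erase i := by
      ext j
      simp only [Finset.mem_filter, Finset.mem_univ, true_and, Finset.mem_erase, and_true]
      constructor
      · rintro h7 rfl
        exact lt_irrefl _ h7
      · intro h7
        have h8 : j.val < ℓ := ZMod.val_lt j
        have h9 : j.val ≠ i.val := fun h10 => h7 (ZMod.val_injective ℓ h10)
        omega
    rw [h5, h6, Finset.sum_empty]
    have h7 := hg c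
    rw [← Finset.add_sum_erase _ _ (Finset.mem_univ i)] at h7
    linarith
  · have h1 := val_succ i h
    have h6 : univ.filter (fun j : ZMod ℓ => j.val < (i + 1).val) =
        insert i (univ.filter (fun j : ZMod ℓ => j.val < i.val)) := by
      ext j
      simp only [Finset.mem_filter, Finset.mem_univ, true_and, Finset.mem_insert, h1]
      constructor
      · intro h7
        by_cases h8 : j = i
        · exact Or.inl h8
        · right
          have h9 : j.val ≠ i.val := fun h10 => h8 (ZMod.val_injective ℓ h10)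
          omega
      · rintro (rfl | h7)
        · omega
        · omega
    rw [h6, Finset.sum_insert (by simp)]
    ring

theorem approx' {m : ℕ} (hm : 0 < m) (g : ZMod ℓ → Fin m → ℝ) (hg : ∀ c, ∑ i, g i c = 0)
    (lam : ZMod ℓ → ℝ) (hlam : ∑ i, lam i = 1) (α : ℝ) (hα0 : 0 ≤ α) (hα1 : α ≤ 1)
    (ε : ℝ) (hε : 0 < ε) :
    ∃ χ : ZMod ℓ → ℝ, (∀ i, 0 ≤ χ i) ∧ (∀ i, χ i ≤ 1) ∧ DescLE m χ ∧
      (∑ i, χ i * lam i = α) ∧ ∀ c, |∑ i, χ i * g i c| ≤ ε := by
  set B : ℝ := ∑ c : Fin m, ∑ i : ZMod ℓ, |mom m (i + 1) c - mom m i c| with hB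
  have h1 : ∀ᶠ t : ℝ in atTop, t⁻¹ * B < ε / 2 := by
    have h2 : Tendsto (fun t : ℝ => t⁻¹ * B) atTop (𝓝 (0 * B)) :=
      tendsto_inv_atTop_zero.mul_const B
    rw [zero_mul] at h2
    exact h2.eventually (gt_mem_nhds (by linarith))
  obtain ⟨t, ⟨ht1, ht2⟩, ht3⟩ := ((h1.and (genpos m (psum g))).and (eventually_gt_atTop (0 : ℝ))).exists
  obtain ⟨χ, hχ0, hχ1, hD, hlamχ, hG⟩ := approx hm
    (fun i c => psum g i c + t⁻¹ * mom m i c) ht2 lam hlam α hα0 hα1 (ε / 2) (by linarith)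
  refine ⟨χ, hχ0, hχ1, hD, hlamχ, ?_⟩
  intro c
  have h3 := hG c
  have h4 : ∑ i, χ i * (psum g (i + 1) c + t⁻¹ * mom m (i + 1) c - (psum g i c + t⁻¹ * mom m i c)) =
      ∑ i, χ i * g i c + t⁻¹ * ∑ i, χ i * (mom m (i + 1) c - mom m i c) := by
    rw [Finset.mul_sum, ← Finset.sum_add_distrib]
    apply Finset.sum_congr rfl
    intro i _
    rw [← psum_succ g hg i c]
    ring
  simp only [h4] at h3
  have h5 : |∑ i, χ i * (mom m (i + 1) c - mom m i c)| ≤ B := by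
    calc |∑ i, χ i * (mom m (i + 1) c - mom m i c)|
        ≤ ∑ i, |χ i * (mom m (i + 1) c - mom m i c)| := Finset.abs_sum_le_sum_abs _ _
      _ ≤ ∑ i : ZMod ℓ, |mom m (i + 1) c - mom m i c| := by
          apply Finset.sum_le_sum
          intro i _
          rw [abs_mul, abs_of_nonneg (hχ0 i)]
          calc χ i * |mom m (i + 1) c - mom m i c| ≤ 1 * |mom m (i + 1) c - mom m i c| :=
                mul_le_mul_of_nonneg_right (hχ1 i) (abs_nonneg _)
            _ = _ := one_mul _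
      _ ≤ B := Finset.single_le_sum (f := fun c => ∑ i : ZMod ℓ, |mom m (i + 1) c - mom m i c|)
          (fun c _ => Finset.sum_nonneg (fun i _ => abs_nonneg _)) (Finset.mem_univ c)
  have h6 : |t⁻¹ * ∑ i, χ i * (mom m (i + 1) c - mom m i c)| ≤ ε / 2 := by
    rw [abs_mul, abs_of_pos (inv_pos.2 ht3)]
    exact (mul_le_mul_of_nonneg_left h5 (inv_pos.2 ht3).le).trans ht1.le
  have h7 : ∑ i, χ i * g i c = (∑ i, χ i * g i c + t⁻¹ * ∑ i, χ i * (mom m (i + 1) c - mom m i c)) -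
      t⁻¹ * ∑ i, χ i * (mom m (i + 1) c - mom m i c) := by ring
  rw [h7]
  calc _ ≤ |∑ i, χ i * g i c + t⁻¹ * ∑ i, χ i * (mom m (i + 1) c - mom m i c)| +
      |t⁻¹ * ∑ i, χ i * (mom m (i + 1) c - mom m i c)| := abs_sub _ _
    _ ≤ ε := by linarith

theorem frac_necklace {m : ℕ} (hm : 0 < m) (g : ZMod ℓ → Fin m → ℝ) (hg : ∀ c, ∑ i, g i c = 0)
    (lam : ZMod ℓ → ℝ) (hlam : ∑ i, lam i = 1) (α : ℝ) (hα0 : 0 ≤ α) (hα1 : α ≤ 1) :
    ∃ χ : ZMod ℓ → ℝ, (∀ i, 0 ≤ χ i) ∧ (∀ i, χ i ≤ 1) ∧ DescLE m χ ∧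
      (∑ i, χ i * lam i = α) ∧ ∀ c, ∑ i, χ i * g i c = 0 := by
  have hex : ∀ n : ℕ, ∃ χ : ZMod ℓ → ℝ, (∀ i, 0 ≤ χ i) ∧ (∀ i, χ i ≤ 1) ∧ DescLE m χ ∧
      (∑ i, χ i * lam i = α) ∧ ∀ c, |∑ i, χ i * g i c| ≤ 1 / ((n : ℝ) + 1) := by
    intro n
    exact approx' hm g hg lam hlam α hα0 hα1 _ (by positivity)
  choose x hx0 hx1 hxD hxl hxg using hex
  have hK : IsCompact (Set.pi Set.univ (fun _ : ZMod ℓ => Set.Icc (0 : ℝ) 1)) :=
    isCompact_univ_pi (fun _ => isCompact_Icc)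
  obtain ⟨χ, hχ, φ, hφ, hlim⟩ := hK.tendsto_subseq (x := x) (fun n => by
    intro i _; exact ⟨hx0 n i, hx1 n i⟩)
  have hpt : ∀ i, Tendsto (fun n => x (φ n) i) atTop (𝓝 (χ i)) := by
    intro i
    exact (tendsto_pi_nhds.1 hlim) i
  refine ⟨χ, fun i => (hχ i (Set.mem_univ i)).1, fun i => (hχ i (Set.mem_univ i)).2, ?_, ?_, ?_⟩
  · exact descLE_of_tendsto m (fun n => x (φ n)) χ (fun n => hxD _) hpt
  · have h1 : Tendsto (fun n => ∑ i, x (φ n) i * lam i) atTop (𝓝 (∑ i, χ i * lam i)) := by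
      apply tendsto_finsetSum
      intro i _
      exact (hpt i).mul_const _
    have h2 : Tendsto (fun n => ∑ i, x (φ n) i * lam i) atTop (𝓝 α) := by
      have : (fun n => ∑ i, x (φ n) i * lam i) = fun _ => α := by
        ext n; exact hxl _
      rw [this]; exact tendsto_const_nhds
    exact tendsto_nhds_unique h1 h2
  · intro c
    have h1 : Tendsto (fun n => ∑ i, x (φ n) i * g i c) atTop (𝓝 (∑ i, χ i * g i c)) := by
      apply tendsto_finsetSum
      intro i _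
      exact (hpt i).mul_const _
    have h2 : Tendsto (fun n => ∑ i, x (φ n) i * g i c) atTop (𝓝 0) := by
      have h3 : Tendsto (fun n : ℕ => 1 / ((φ n : ℝ) + 1)) atTop (𝓝 0) :=
        (tendsto_one_div_add_atTop_nhds_zero_nat (𝕜 := ℝ)).comp hφ.tendsto_atTop
      exact squeeze_zero_norm (fun n => by rw [Real.norm_eq_abs]; exact hxg (φ n) c) h3
    exact tendsto_nhds_unique h1 h2

end Pool.Agent.NH76.Neck
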