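import Mathlib

/-!
Rounding of a fractional selection to a 0/1 selection (network integrality).
-/

namespace Pool.Agent.NH76.Neck

open Finset

/-- difference vector of a slot with colours `a` (removed) and `b` (added). -/
def dvec {h : ℕ} (a b : Fin h) (c : Fin h) : ℤ :=
  (if b = c then 1 else 0) - (if a = c then 1 else 0)

lemma sum_dvec {h : ℕ} (a b : Fin h) : ∑ c, dvec a b c = 0 := by
  simp [dvec, Finset.sum_sub_distrib]

/-- kernel lemma: if the number of edges is at least the number of touched vertices,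
there is a nontrivial linear relation. -/
lemma exists_relation {ι : Type*} [DecidableEq ι] {h : ℕ} (a b : ι → Fin h)
    (F : Finset ι) (T : Finset (Fin h)) (hTne : T.Nonempty)
    (hT : ∀ c, c ∉ T → ∀ i ∈ F, a i ≠ c ∧ b i ≠ c) (hcard : T.card ≤ F.card) :
    ∃ w : ι → ℝ, (∃ i ∈ F, w i ≠ 0) ∧ (∀ i, i ∉ F → w i = 0) ∧
      ∀ c, ∑ i ∈ F, w i * (dvec (a i) (b i) c : ℝ) = 0 := by
  classical
  let A : (F → ℝ) →ₗ[ℝ] (T → ℝ) :=
    { toFun := fun w c => ∑ i : F, w i * (dvec (a i) (b i) c : ℝ)
      map_add' := by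
        intro x y; ext c
        simp only [Pi.add_apply, add_mul, Finset.sum_add_distrib]
      map_smul' := by
        intro r x; ext c
        simp only [Pi.smul_apply, smul_eq_mul, mul_assoc, RingHom.id_apply, Finset.mul_sum] }
  have hker : ¬ Function.Injective A := by
    intro hinj
    have h1 : Module.finrank ℝ (F → ℝ) ≤ Module.finrank ℝ (T → ℝ) :=
      LinearMap.finrank_le_finrank_of_injective hinj
    have h2 : Module.finrank ℝ (F → ℝ) = Module.finrank ℝ (T → ℝ) := by
      apply le_antisymm h1
      simpa using hcard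
    have hsurj : Function.Surjective A :=
      (LinearMap.injective_iff_surjective_of_finrank_eq_finrank h2).1 hinj
    obtain ⟨c0, hc0⟩ := hTne
    obtain ⟨w, hw⟩ := hsurj (Pi.single ⟨c0, hc0⟩ 1)
    have hs1 : ∑ c : T, A w c = 1 := by
      rw [hw]; simp
    have hs0 : ∑ c : T, A w c = 0 := by
      simp only [A, LinearMap.coe_mk, AddHom.coe_mk]
      rw [Finset.sum_comm]
      apply Finset.sum_eq_zero
      intro i _
      rw [← Finset.mul_sum]
      have : ∑ c : T, (dvec (a i) (b i) c : ℝ) = 0 := by
        have h3 : ∑ c : T, (dvec (a i) (b i) c : ℝ) = ∑ c ∈ T, (dvec (a i) (b i) c : ℝ) := by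
          rw [← Finset.sum_coe_sort T]
        rw [h3]
        have h4 : ∑ c ∈ T, (dvec (a i) (b i) c : ℝ) = ∑ c, (dvec (a i) (b i) c : ℝ) := by
          apply Finset.sum_subset (Finset.subset_univ _)
          intro c _ hc
          obtain ⟨h5, h6⟩ := hT c hc i i.2
          simp [dvec, h5, h6]
        rw [h4]
        exact_mod_cast sum_dvec (a i) (b i)
      rw [this, mul_zero]
    rw [hs0] at hs1
    exact zero_ne_one hs1
  obtain ⟨x, y, hxy, hne⟩ : ∃ x y, A x = A y ∧ x ≠ y := by
    rw [Function.Injective] at hker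
    push Not at hker
    exact hker
  obtain ⟨i0, hi0⟩ : ∃ i, x i ≠ y i := by
    by_contra hcon
    push Not at hcon
    exact hne (funext hcon)
  refine ⟨fun i => if hi : i ∈ F then x ⟨i, hi⟩ - y ⟨i, hi⟩ else 0, ⟨i0, i0.2, ?_⟩, ?_, ?_⟩
  · simp only [Subtype.coe_eta, dif_pos i0.2]
    exact sub_ne_zero.2 hi0
  · intro i hi
    simp [hi]
  · intro c
    by_cases hc : c ∈ T
    · have h1 : A x ⟨c, hc⟩ = A y ⟨c, hc⟩ := by rw [hxy]
      simp only [A, LinearMap.coe_mk, AddHom.coe_mk] at h1
      rw [← Finset.sum_coe_sort F]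
      rw [← sub_eq_zero, ← Finset.sum_sub_distrib] at h1
      rw [← h1]
      apply Finset.sum_congr rfl
      intro i _
      simp [sub_mul]
    · apply Finset.sum_eq_zero
      intro i hi
      obtain ⟨h5, h6⟩ := hT c hc i hi
      simp [dvec, h5, h6]


/-- a fractional entry cannot be the only non-integral contribution. -/
lemma two_le_touch {ι : Type*} [Fintype ι] [DecidableEq ι] {h : ℕ} (a b : ι → Fin h)
    (v : Fin h → ℤ) (χ : ι → ℝ) (h0 : ∀ i, 0 ≤ χ i) (h1 : ∀ i, χ i ≤ 1)
    (hv : ∀ c, ∑ i, χ i * (dvec (a i) (b i) c : ℝ) = v c)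
    (F : Finset ι) (hF : ∀ i, i ∈ F ↔ 0 < χ i ∧ χ i < 1) (hab : ∀ i ∈ F, a i ≠ b i)
    (c : Fin h) (hc : ∃ i ∈ F, a i = c ∨ b i = c) :
    2 ≤ (F.filter (fun i => a i = c ∨ b i = c)).card := by
  classical
  by_contra hlt
  push Not at hlt
  obtain ⟨i, hiF, hic⟩ := hc
  have hmem : i ∈ F.filter (fun i => a i = c ∨ b i = c) := by
    rw [Finset.mem_filter]; exact ⟨hiF, hic⟩
  have hcard : (F.filter (fun i => a i = c ∨ b i = c)).card = 1 := by
    have : 0 < (F.filter (fun i => a i = c ∨ b i = c)).card := Finset.card_pos.2 ⟨i, hmem⟩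
    omega
  obtain ⟨i', hi'⟩ := Finset.card_eq_one.1 hcard
  have hii : i = i' := by rw [hi'] at hmem; simpa using hmem
  subst hii
  -- other contributions are integers
  have hint : ∀ j, j ≠ i → ∃ n : ℤ, χ j * (dvec (a j) (b j) c : ℝ) = n := by
    intro j hj
    by_cases hjF : j ∈ F
    · have : ¬ (a j = c ∨ b j = c) := by
        intro hcon
        have : j ∈ F.filter (fun i => a i = c ∨ b i = c) := by
          rw [Finset.mem_filter]; exact ⟨hjF, hcon⟩
        rw [hi'] at this
        exact hj (by simpa using this)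
      push Not at this
      refine ⟨0, ?_⟩
      simp [dvec, this.1, this.2]
    · rw [hF] at hjF
      rcases (h0 j).eq_or_lt with h2 | h2
      · exact ⟨0, by rw [← h2]; simp⟩
      · have h3 : χ j = 1 := by
          apply le_antisymm (h1 j)
          by_contra hcon
          push Not at hcon
          exact hjF ⟨h2, hcon⟩
        exact ⟨dvec (a j) (b j) c, by rw [h3]; simp⟩
  choose! n hn using hint
  have hsum := hv c
  rw [← Finset.add_sum_erase _ _ (Finset.mem_univ i)] at hsum
  have hrest : ∑ j ∈ univ.erase i, χ j * (dvec (a j) (b j) c : ℝ) = ((∑ j ∈ univ.erase i, n j : ℤ) : ℝ) := by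
    push_cast
    apply Finset.sum_congr rfl
    intro j hj
    exact hn j (Finset.ne_of_mem_erase hj)
  rw [hrest] at hsum
  have hfr := (hF i).1 hiF
  have habi := hab i hiF
  have key : ∃ N : ℤ, χ i = N := by
    rcases hic with h5 | h5
    · have h6 : b i ≠ c := fun h7 => habi (h5.trans h7.symm)
      refine ⟨(∑ j ∈ univ.erase i, n j) - v c, ?_⟩
      have h7 : dvec (a i) (b i) c = -1 := by simp [dvec, h5, h6]
      rw [h7] at hsum
      push_cast at hsum ⊢
      linarith
    · have h6 : a i ≠ c := fun h7 => habi (h7.trans h5.symm)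
      refine ⟨v c - (∑ j ∈ univ.erase i, n j), ?_⟩
      have h7 : dvec (a i) (b i) c = 1 := by simp [dvec, h5, h6]
      rw [h7] at hsum
      push_cast at hsum ⊢
      linarith
  obtain ⟨N, hN⟩ := key
  rw [hN] at hfr
  have h8 : (0 : ℤ) < N := by exact_mod_cast hfr.1
  have h9 : N < 1 := by exact_mod_cast hfr.2
  omega

/-- moving along `w` until an entry becomes integral. -/
lemma move {ι : Type*} [DecidableEq ι] (χ w : ι → ℝ) (F : Finset ι)
    (h0 : ∀ i, 0 ≤ χ i) (h1 : ∀ i, χ i ≤ 1)
    (hF : ∀ i, i ∈ F ↔ 0 < χ i ∧ χ i < 1)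
    (hne : ∃ i ∈ F, w i ≠ 0) (hw : ∀ i, i ∉ F → w i = 0) :
    ∃ t : ℝ, (∀ i, 0 ≤ χ i + t * w i) ∧ (∀ i, χ i + t * w i ≤ 1) ∧
      ∃ i ∈ F, χ i + t * w i = 0 ∨ χ i + t * w i = 1 := by
  classical
  let τ : ι → ℝ := fun i => if 0 < w i then (1 - χ i) / w i else χ i / (- w i)
  have hFn : (F.filter (fun i => w i ≠ 0)).Nonempty := by
    obtain ⟨i, hi, hwi⟩ := hne
    exact ⟨i, Finset.mem_filter.2 ⟨hi, hwi⟩⟩
  obtain ⟨i0, hi0, hmin⟩ := Finset.exists_min_image _ τ hFn
  rw [Finset.mem_filter] at hi0
  have hfr0 := (hF i0).1 hi0.1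
  have hτ0 : 0 < τ i0 := by
    by_cases hp : 0 < w i0
    · simp only [τ, if_pos hp]
      exact div_pos (by linarith [hfr0.2]) hp
    · simp only [τ, if_neg hp]
      have : w i0 < 0 := lt_of_le_of_ne (not_lt.1 hp) hi0.2
      exact div_pos hfr0.1 (by linarith)
  have hall : ∀ i, 0 ≤ χ i + τ i0 * w i ∧ χ i + τ i0 * w i ≤ 1 := by
    intro i
    by_cases hwi : w i = 0
    · rw [hwi, mul_zero, add_zero]; exact ⟨h0 i, h1 i⟩
    · have hiF : i ∈ F := by
        by_contra hcon; exact hwi (hw i hcon)
      have hle := hmin i (Finset.mem_filter.2 ⟨hiF, hwi⟩)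
      by_cases hp : 0 < w i
      · have hti : τ i = (1 - χ i) / w i := by simp only [τ, if_pos hp]
        rw [hti] at hle
        have h2 : τ i0 * w i ≤ 1 - χ i := by
          rwa [le_div_iff₀ hp] at hle
        constructor
        · have := h0 i
          have : 0 ≤ τ i0 * w i := mul_nonneg hτ0.le hp.le
          linarith [h0 i]
        · linarith
      · have hn : w i < 0 := lt_of_le_of_ne (not_lt.1 hp) hwi
        have hti : τ i = χ i / (- w i) := by simp only [τ, if_neg hp]
        rw [hti] at hle
        have h2 : τ i0 * (- w i) ≤ χ i := by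
          rwa [le_div_iff₀ (by linarith)] at hle
        constructor
        · linarith
        · have : τ i0 * w i ≤ 0 := mul_nonpos_of_nonneg_of_nonpos hτ0.le hn.le
          linarith [h1 i]
  refine ⟨τ i0, fun i => (hall i).1, fun i => (hall i).2, i0, hi0.1, ?_⟩
  by_cases hp : 0 < w i0
  · right
    have hti : τ i0 = (1 - χ i0) / w i0 := by simp only [τ, if_pos hp]
    rw [hti, div_mul_cancel₀ _ hp.ne']; ring
  · left
    have hn : w i0 < 0 := lt_of_le_of_ne (not_lt.1 hp) hi0.2
    have hti : τ i0 = χ i0 / (- w i0) := by simp only [τ, if_neg hp]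
    rw [hti, div_neg, neg_mul, div_mul_cancel₀ _ hi0.2]; ring

theorem rounding {ι : Type*} [Fintype ι] [DecidableEq ι] {h : ℕ} (a b : ι → Fin h)
    (v : Fin h → ℤ) :
    ∀ (n : ℕ) (χ : ι → ℝ), (∀ i, 0 ≤ χ i) → (∀ i, χ i ≤ 1) →
      (∀ c, ∑ i, χ i * (dvec (a i) (b i) c : ℝ) = v c) →
      (univ.filter (fun i => 0 < χ i ∧ χ i < 1)).card ≤ n →
      ∃ z : ι → Bool, (∀ i, z i = true → 0 < χ i) ∧ (∀ i, z i = false → χ i < 1) ∧
        ∀ c, ∑ i, (if z i = true then dvec (a i) (b i) c else 0) = v c := by
  classical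
  -- the integral case
  have hbase : ∀ χ : ι → ℝ, (∀ i, 0 ≤ χ i) → (∀ i, χ i ≤ 1) →
      (∀ c, ∑ i, χ i * (dvec (a i) (b i) c : ℝ) = v c) →
      (∀ i, ¬ (0 < χ i ∧ χ i < 1)) →
      ∃ z : ι → Bool, (∀ i, z i = true → 0 < χ i) ∧ (∀ i, z i = false → χ i < 1) ∧
        ∀ c, ∑ i, (if z i = true then dvec (a i) (b i) c else 0) = v c := by
    intro χ h0 h1 hv hint
    refine ⟨fun i => decide (χ i = 1), ?_, ?_, ?_⟩
    · intro i hi
      have : χ i = 1 := by simpa using hi
      rw [this]; norm_num
    · intro i hi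
      have : χ i ≠ 1 := by simpa using hi
      exact lt_of_le_of_ne (h1 i) this
    · intro c
      have : (((∑ i, (if (decide (χ i = 1)) = true then dvec (a i) (b i) c else 0) : ℤ)) : ℝ) = v c := by
        rw [← hv c]
        push_cast
        apply Finset.sum_congr rfl
        intro i _
        by_cases hi : χ i = 1
        · simp [hi]
        · have h2 : χ i = 0 := by
            by_contra h3
            exact hint i ⟨lt_of_le_of_ne (h0 i) (Ne.symm h3), lt_of_le_of_ne (h1 i) hi⟩
          simp [h2]
      exact_mod_cast this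
  intro n
  induction n with
  | zero =>
    intro χ h0 h1 hv hn
    apply hbase χ h0 h1 hv
    intro i hi
    have : i ∈ univ.filter (fun i => 0 < χ i ∧ χ i < 1) := by simpa using hi
    have h2 : (univ.filter (fun i => 0 < χ i ∧ χ i < 1)) = ∅ := by
      rw [← Finset.card_eq_zero]; omega
    rw [h2] at this
    simp at this
  | succ n ih =>
    intro χ h0 h1 hv hn
    set F := univ.filter (fun i => 0 < χ i ∧ χ i < 1) with hFdef
    have hF : ∀ i, i ∈ F ↔ 0 < χ i ∧ χ i < 1 := by
      intro i; simp [hFdef]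
    by_cases hFe : F.Nonempty
    swap
    · apply hbase χ h0 h1 hv
      intro i hi
      exact hFe ⟨i, (hF i).2 hi⟩
    -- general step : a new vector with fewer fractional entries
    have hstep : ∀ χ' : ι → ℝ, (∀ i, 0 ≤ χ' i) → (∀ i, χ' i ≤ 1) →
        (∀ c, ∑ i, χ' i * (dvec (a i) (b i) c : ℝ) = v c) →
        (∀ i, i ∉ F → χ' i = χ i) → (∃ i ∈ F, ¬ (0 < χ' i ∧ χ' i < 1)) →
        ∃ z : ι → Bool, (∀ i, z i = true → 0 < χ i) ∧ (∀ i, z i = false → χ i < 1) ∧
        ∀ c, ∑ i, (if z i = true then dvec (a i) (b i) c else 0) = v c := by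
      intro χ' h0' h1' hv' hout ⟨i0, hi0, hi0'⟩
      obtain ⟨z, hz1, hz2, hz3⟩ := ih χ' h0' h1' hv' (by
        have hsub : univ.filter (fun i => 0 < χ' i ∧ χ' i < 1) ⊆ F.erase i0 := by
          intro i hi
          rw [Finset.mem_filter] at hi
          rw [Finset.mem_erase]
          constructor
          · rintro rfl; exact hi0' hi.2
          · by_contra hiF
            rw [hout i hiF] at hi
            exact hiF ((hF i).2 hi.2)
        have := Finset.card_le_card hsub
        rw [Finset.card_erase_of_mem hi0] at this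
        omega)
      refine ⟨z, ?_, ?_, hz3⟩
      · intro i hi
        by_cases hiF : i ∈ F
        · exact ((hF i).1 hiF).1
        · rw [← hout i hiF]; exact hz1 i hi
      · intro i hi
        by_cases hiF : i ∈ F
        · exact ((hF i).1 hiF).2
        · rw [← hout i hiF]; exact hz2 i hi
    by_cases hab : ∀ i ∈ F, a i ≠ b i
    · -- linear relation
      let T : Finset (Fin h) := F.image a ∪ F.image b
      have hTne : T.Nonempty := by
        obtain ⟨i, hi⟩ := hFe
        exact ⟨a i, Finset.mem_union_left _ (Finset.mem_image_of_mem _ hi)⟩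
      have hTc : ∀ c, c ∉ T → ∀ i ∈ F, a i ≠ c ∧ b i ≠ c := by
        intro c hc i hi
        constructor
        · rintro rfl; exact hc (Finset.mem_union_left _ (Finset.mem_image_of_mem _ hi))
        · rintro rfl; exact hc (Finset.mem_union_right _ (Finset.mem_image_of_mem _ hi))
      have hcard : T.card ≤ F.card := by
        have := Finset.card_mul_le_card_mul (s := T) (t := F) (fun c i => a i = c ∨ b i = c)
          (m := 2) (n := 2) (by
            intro c hc
            have hc' : ∃ i ∈ F, a i = c ∨ b i = c := by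
              rw [Finset.mem_union, Finset.mem_image, Finset.mem_image] at hc
              rcases hc with ⟨i, hi, hic⟩ | ⟨i, hi, hic⟩
              · exact ⟨i, hi, Or.inl hic⟩
              · exact ⟨i, hi, Or.inr hic⟩
            exact two_le_touch a b v χ h0 h1 hv F hF hab c hc') (by
            intro i hi
            have : T.bipartiteBelow (fun c i => a i = c ∨ b i = c) i ⊆ {a i, b i} := by
              intro c hc
              rw [Finset.mem_bipartiteBelow] at hc
              rcases hc.2 with h5 | h5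
              · simp [h5]
              · simp [h5]
            exact (Finset.card_le_card this).trans Finset.card_le_two)
        omega
      obtain ⟨w, hw1, hw2, hw3⟩ := exists_relation a b F T hTne hTc hcard
      obtain ⟨t, ht0, ht1, i0, hi0, hi0'⟩ := move χ w F h0 h1 hF hw1 hw2
      apply hstep (fun i => χ i + t * w i) ht0 ht1
      · intro c
        have : ∑ i, w i * (dvec (a i) (b i) c : ℝ) = 0 := by
          rw [← hw3 c]
          symm
          apply Finset.sum_subset (Finset.subset_univ _)
          intro i _ hi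
          rw [hw2 i hi, zero_mul]
        calc ∑ i, (χ i + t * w i) * (dvec (a i) (b i) c : ℝ)
            = ∑ i, χ i * (dvec (a i) (b i) c : ℝ) + t * ∑ i, w i * (dvec (a i) (b i) c : ℝ) := by
              rw [Finset.mul_sum, ← Finset.sum_add_distrib]
              apply Finset.sum_congr rfl
              intro i _; ring
          _ = v c := by rw [this, mul_zero, add_zero, hv c]
      · intro i hi
        rw [hw2 i hi, mul_zero, add_zero]
      · refine ⟨i0, hi0, ?_⟩
        rcases hi0' with h5 | h5
        · rw [h5]; intro h6; exact lt_irrefl _ h6.1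
        · rw [h5]; intro h6; exact lt_irrefl _ h6.2
    · push Not at hab
      obtain ⟨i0, hi0, hab0⟩ := hab
      apply hstep (Function.update χ i0 0)
      · intro i
        by_cases hi : i = i0
        · subst hi; simp
        · rw [Function.update_of_ne hi]; exact h0 i
      · intro i
        by_cases hi : i = i0
        · subst hi; simp
        · rw [Function.update_of_ne hi]; exact h1 i
      · intro c
        rw [← hv c]
        apply Finset.sum_congr rfl
        intro i _
        by_cases hi : i = i0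
        · subst hi
          have : dvec (a i) (b i) c = 0 := by simp [dvec, hab0]
          rw [this]; simp
        · rw [Function.update_of_ne hi]
      · intro i hi
        have : i ≠ i0 := by rintro rfl; exact hi hi0
        rw [Function.update_of_ne this]
      · exact ⟨i0, hi0, by simp⟩

end Pool.Agent.NH76.Neck
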